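import Pool.Agent.Helper89.MS.Defs

/-! MS: positivity of `W k l c M` and the field `H0` of `Hyp`. -/

open Finset Polynomial

namespace MS
namespace H33

lemma coeff_P (l j : ℕ) : (P l).coeff j = if 1 ≤ j ∧ j ≤ l then 1 else 0 := by
  unfold P
  rw [finsetSum_coeff]
  simp only [coeff_X_pow]
  rw [Finset.sum_ite_eq]
  simp only [mem_Icc]

lemma coeff_Q (l j : ℕ) : (1 + P l).coeff j = if j ≤ l then 1 else 0 := by
  rw [coeff_add, coeff_P, coeff_one]
  rcases Nat.eq_zero_or_pos j with rfl | h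
  · simp
  · have h1 : j ≠ 0 := by omega
    have h3 : 1 ≤ j := h
    by_cases h2 : j ≤ l
    · simp [h1, h2, h3]
    · simp [h1, h2]

lemma mul_pos_coeff {f g : ℕ[X]} {i j : ℕ} (hf : 0 < f.coeff i) (hg : 0 < g.coeff j) :
    0 < (f * g).coeff (i + j) := by
  rw [coeff_mul]
  refine lt_of_lt_of_le (Nat.mul_pos hf hg) ?_
  exact Finset.single_le_sum (f := fun p : ℕ × ℕ => f.coeff p.1 * g.coeff p.2)
    (fun _ _ => Nat.zero_le _) (mem_antidiagonal.mpr (rfl : (i, j).1 + (i, j).2 = i + j))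

lemma pos_P {l : ℕ} (hl : 1 ≤ l) {f : ℕ[X]} {a b : ℕ} (hab : a ≤ b)
    (hf : ∀ k, a ≤ k → k ≤ b → 0 < f.coeff k) :
    ∀ k, a + 1 ≤ k → k ≤ b + l → 0 < (f * P l).coeff k := by
  intro k h1 h2
  have hk : k = min (k - 1) b + (k - min (k - 1) b) := by omega
  rw [hk]
  refine mul_pos_coeff (hf _ (by omega) (by omega)) ?_
  rw [coeff_P, if_pos (by omega)]
  norm_num

lemma pos_Q {l : ℕ} {f : ℕ[X]} {a b : ℕ} (hab : a ≤ b)
    (hf : ∀ k, a ≤ k → k ≤ b → 0 < f.coeff k) :
    ∀ k, a ≤ k → k ≤ b + l → 0 < (f * (1 + P l)).coeff k := by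
  intro k h1 h2
  have hk : k = min k b + (k - min k b) := by omega
  rw [hk]
  refine mul_pos_coeff (hf _ (by omega) (by omega)) ?_
  rw [coeff_Q, if_pos (by omega)]
  norm_num

lemma pos_Ppow {l : ℕ} (hl : 1 ≤ l) (c : ℕ) :
    ∀ k, c ≤ k → k ≤ l * c → 0 < ((P l) ^ c).coeff k := by
  induction c with
  | zero =>
    intro k _ h
    have : k = 0 := by simpa using h
    subst this
    simp
  | succ c ih =>
    have h : c ≤ l * c := Nat.le_mul_of_pos_left c hl
    intro k h1 h2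
    rw [pow_succ]
    exact pos_P hl h ih k h1 (by rw [Nat.mul_succ] at h2; exact h2)

lemma pos_W {l : ℕ} (hl : 1 ≤ l) (c M : ℕ) :
    ∀ k, c ≤ k → k ≤ l * (c + M) → 0 < ((P l) ^ c * (1 + P l) ^ M).coeff k := by
  induction M with
  | zero =>
    intro k h1 h2
    rw [pow_zero, mul_one]
    exact pos_Ppow hl c k h1 (by simpa using h2)
  | succ M ih =>
    have h : c ≤ l * (c + M) := (Nat.le_add_right c M).trans (Nat.le_mul_of_pos_left _ hl)
    intro k h1 h2
    rw [pow_succ, ← mul_assoc]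
    exact pos_Q h ih k h1 (by rw [← Nat.add_assoc, Nat.mul_succ] at h2; exact h2)

lemma natDegree_P (l : ℕ) : (P l).natDegree ≤ l := by
  rw [natDegree_le_iff_coeff_eq_zero]
  intro N hN
  rw [coeff_P, if_neg (by omega)]

lemma natDegree_Q (l : ℕ) : (1 + P l).natDegree ≤ l := by
  rw [natDegree_le_iff_coeff_eq_zero]
  intro N hN
  rw [coeff_Q, if_neg (by omega)]

lemma X_dvd_P (l : ℕ) : (X : ℕ[X]) ∣ P l := by
  rw [X_dvd_iff, coeff_P, if_neg (by omega)]

end H33

open H33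

theorem W_pos_iff {k l c M : ℕ} (hl : 1 ≤ l) : 0 < W k l c M ↔ c ≤ k ∧ k ≤ l * (c + M) := by
  constructor
  · intro h
    constructor
    · by_contra hn
      have h1 : (X : ℕ[X]) ^ c ∣ (P l) ^ c * (1 + P l) ^ M :=
        (pow_dvd_pow_of_dvd (X_dvd_P l) c).mul_right _
      have h2 := (X_pow_dvd_iff.mp h1) k (by omega)
      unfold W at h
      omega
    · by_contra hn
      have h1 : ((P l) ^ c * (1 + P l) ^ M).natDegree ≤ l * (c + M) := by
        refine natDegree_mul_le.trans ?_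
        have e1 := (natDegree_pow_le (p := P l) (n := c)).trans
          (Nat.mul_le_mul_left c (natDegree_P l))
        have e2 := (natDegree_pow_le (p := 1 + P l) (n := M)).trans
          (Nat.mul_le_mul_left M (natDegree_Q l))
        calc _ ≤ c * l + M * l := Nat.add_le_add e1 e2
          _ = l * (c + M) := by ring
      have h2 := coeff_eq_zero_of_natDegree_lt (lt_of_le_of_lt h1 (not_le.mp hn))
      unfold W at h
      omega
  · rintro ⟨h1, h2⟩
    exact pos_W hl c M k h1 h2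

theorem W_H0 {k l M x y z : ℕ} (hl : 1 ≤ l) (hx : 0 < W k l x M) (hy : 0 < W k l y M)
    (hxz : x ≤ z) (hzy : z ≤ y) : 0 < W k l z M := by
  rw [W_pos_iff hl] at *
  refine ⟨by omega, hx.2.trans (Nat.mul_le_mul_left l (by omega))⟩

/-- the field `H0` of `Hyp` -/
theorem W_H0_real {k l M : ℕ} (hl : 1 ≤ l) : ∀ x y z, 0 < (W k l x M : ℝ) → 0 < (W k l y M : ℝ) →
    x ≤ z → z ≤ y → 0 < (W k l z M : ℝ) := by
  intro x y z hx hy h1 h2
  exact Nat.cast_pos.mpr (W_H0 hl (Nat.cast_pos.mp hx) (Nat.cast_pos.mp hy) h1 h2)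

end MS
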