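import Pool.Agent.Helper89.MS.Sheet

/-! MS, package B0: a family of maximal weight which is left-compressed, closed upwards and
spanned by its members of positive weight. -/

open Finset

namespace MS
namespace B0

/-- replace `j` by `i` -/
def sh (i j : ℕ) (S : Finset ℕ) : Finset ℕ := insert i (S.erase j)

/-- the shift of a member of `F` -/
def mv (i j : ℕ) (F : Finset (Finset ℕ)) (S : Finset ℕ) : Finset ℕ :=
  if j ∈ S ∧ i ∉ S ∧ sh i j S ∉ F then sh i j S else S

/-- the potential -/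
def pot (F : Finset (Finset ℕ)) : ℕ := ∑ S ∈ F, ∑ x ∈ S, x

lemma card_sh {i j : ℕ} {S : Finset ℕ} (hj : j ∈ S) (hi : i ∉ S) : #(sh i j S) = #S := by
  unfold sh
  rw [card_insert_of_notMem (fun h => hi (mem_of_mem_erase h)), card_erase_of_mem hj]
  have : 0 < #S := card_pos.mpr ⟨j, hj⟩
  omega

lemma sh_back {i j : ℕ} {S : Finset ℕ} (hj : j ∈ S) (hi : i ∉ S) :
    insert j ((sh i j S).erase i) = S := by
  unfold sh
  rw [erase_insert (fun h => hi (mem_of_mem_erase h)), insert_erase hj]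

lemma card_mv {i j : ℕ} (F : Finset (Finset ℕ)) (S : Finset ℕ) : #(mv i j F S) = #S := by
  unfold mv
  split_ifs with h
  · exact card_sh h.1 h.2.1
  · rfl

lemma mv_inj (i j : ℕ) (F : Finset (Finset ℕ)) : Set.InjOn (mv i j F) F := by
  intro S hS T hT h
  unfold mv at h
  have hS' : S ∈ F := hS
  have hT' : T ∈ F := hT
  split_ifs at h with h1 h2 h2
  · rw [← sh_back h1.1 h1.2.1, h, sh_back h2.1 h2.2.1]
  · rw [h] at h1
    exact absurd hT' h1.2.2
  · rw [← h] at h2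
    exact absurd hS' h2.2.2
  · exact h

lemma sum_sh {i j : ℕ} (hij : i < j) {S : Finset ℕ} (hj : j ∈ S) (hi : i ∉ S) :
    ∑ x ∈ sh i j S, x < ∑ x ∈ S, x := by
  unfold sh
  rw [sum_insert (fun h => hi (mem_of_mem_erase h))]
  have := Finset.add_sum_erase S (fun x => x) hj
  omega

lemma inter_both {i j : ℕ} {S T : Finset ℕ} (hj : j ∈ S) (hi : i ∉ S) (hj' : j ∈ T)
    (_hi' : i ∉ T) : #(sh i j S ∩ sh i j T) = #(S ∩ T) := by
  have h : sh i j S ∩ sh i j T = sh i j (S ∩ T) := by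
    unfold sh
    ext x
    simp only [mem_inter, mem_insert, mem_erase]
    tauto
  rw [h, card_sh (mem_inter.mpr ⟨hj, hj'⟩) (fun h => hi (mem_inter.mp h).1)]

lemma inter_one {i j : ℕ} {F : Finset (Finset ℕ)} {t : ℕ}
    (hF : ∀ S ∈ F, ∀ T ∈ F, t ≤ #(S ∩ T)) {S T : Finset ℕ} (hS : S ∈ F) (hT : T ∈ F)
    (hj : j ∈ S) (hi : i ∉ S) (hn : ¬ (j ∈ T ∧ i ∉ T ∧ sh i j T ∉ F)) :
    t ≤ #(sh i j S ∩ T) := by
  by_cases hjT : j ∈ T
  · by_cases hiT : i ∈ T
    · have h : sh i j S ∩ T = insert i ((S ∩ T).erase j) := by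
        unfold sh
        ext x
        simp only [mem_inter, mem_insert, mem_erase]
        constructor
        · rintro ⟨h1 | h1, h2⟩
          · exact Or.inl h1
          · exact Or.inr ⟨h1.1, h1.2, h2⟩
        · rintro (h1 | h1)
          · exact ⟨Or.inl h1, h1 ▸ hiT⟩
          · exact ⟨Or.inr ⟨h1.1, h1.2.1⟩, h1.2.2⟩
      have h2 := card_sh (i := i) (mem_inter.mpr ⟨hj, hjT⟩) (fun h => hi (mem_inter.mp h).1)
      unfold sh at h2
      rw [h, h2]
      exact hF S hS T hT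
    · have hmem : sh i j T ∈ F := by
        by_contra h
        exact hn ⟨hjT, hiT, h⟩
      have h : sh i j S ∩ T = S ∩ sh i j T := by
        unfold sh
        ext x
        simp only [mem_inter, mem_insert, mem_erase]
        constructor
        · rintro ⟨h1 | h1, h2⟩
          · exact absurd (h1 ▸ h2) hiT
          · exact ⟨h1.2, Or.inr ⟨h1.1, h2⟩⟩
        · rintro ⟨h1, h2 | h2⟩
          · exact absurd (h2 ▸ h1) hi
          · exact ⟨Or.inr ⟨h2.1, h1⟩, h2.2⟩
      rw [h]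
      exact hF S hS _ hmem
  · refine (hF S hS T hT).trans (card_le_card fun x hx => ?_)
    rw [mem_inter] at hx ⊢
    refine ⟨mem_insert_of_mem (mem_erase.mpr ⟨?_, hx.1⟩), hx.2⟩
    rintro rfl
    exact hjT hx.2

lemma mv_ti {i j t m : ℕ} (hij : i < j) {F : Finset (Finset ℕ)} (hF : TI t m F) :
    TI t m (F.image (mv i j F)) := by
  obtain ⟨h1, h2⟩ := hF
  constructor
  · intro S hS
    obtain ⟨T, hT, rfl⟩ := mem_image.mp hS
    unfold mv
    split_ifs with h
    · intro x hx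
      unfold sh at hx
      rcases mem_insert.mp hx with hx | hx
      · have := mem_range.mp (h1 T hT h.1)
        rw [mem_range]
        omega
      · exact h1 T hT (mem_of_mem_erase hx)
    · exact h1 T hT
  · intro S hS T hT
    obtain ⟨S', hS', rfl⟩ := mem_image.mp hS
    obtain ⟨T', hT', rfl⟩ := mem_image.mp hT
    unfold mv
    split_ifs with ha hb hb
    · rw [inter_both ha.1 ha.2.1 hb.1 hb.2.1]
      exact h2 _ hS' _ hT'
    · exact inter_one h2 hS' hT' ha.1 ha.2.1 hb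
    · rw [inter_comm]
      exact inter_one h2 hT' hS' hb.1 hb.2.1 ha
    · exact h2 _ hS' _ hT'

lemma mv_wt (i j : ℕ) (v : ℕ → ℝ) (F : Finset (Finset ℕ)) : wt v (F.image (mv i j F)) = wt v F := by
  unfold wt
  rw [sum_image (fun x hx y hy h => mv_inj i j F hx hy h)]
  exact sum_congr rfl fun S _ => by rw [card_mv]

lemma mv_pot {i j : ℕ} (hij : i < j) {F : Finset (Finset ℕ)} {S : Finset ℕ} (hS : S ∈ F)
    (hj : j ∈ S) (hi : i ∉ S) (hn : sh i j S ∉ F) : pot (F.image (mv i j F)) < pot F := by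
  unfold pot
  rw [sum_image (fun x hx y hy h => mv_inj i j F hx hy h)]
  refine sum_lt_sum (fun T _ => ?_) ⟨S, hS, ?_⟩
  · unfold mv
    split_ifs with h
    · exact (sum_sh hij h.1 h.2.1).le
    · exact le_rfl
  · unfold mv
    rw [if_pos ⟨hj, hi, hn⟩]
    exact sum_sh hij hj hi

/-- the families spanned by the members of positive weight -/
noncomputable def span (m : ℕ) (v : ℕ → ℝ) (F : Finset (Finset ℕ)) : Finset (Finset ℕ) :=
  open Classical in
  (range m).powerset.filter (fun S => ∃ A ∈ F, A ⊆ S ∧ 0 < v #A)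

lemma mem_span {m : ℕ} {v : ℕ → ℝ} {F : Finset (Finset ℕ)} {S : Finset ℕ} :
    S ∈ span m v F ↔ S ⊆ range m ∧ ∃ A ∈ F, A ⊆ S ∧ 0 < v #A := by
  unfold span
  rw [mem_filter, mem_powerset]

lemma wt_span {t m : ℕ} {v : ℕ → ℝ} (hv : ∀ x, 0 ≤ v x) {F : Finset (Finset ℕ)} (hF : TI t m F) :
    wt v F ≤ wt v (span m v F) := by
  classical
  unfold wt
  have h1 : ∑ S ∈ F, v #S = ∑ S ∈ F.filter (fun S => 0 < v #S), v #S := by
    rw [sum_filter]
    refine sum_congr rfl fun S _ => ?_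
    split_ifs with h
    · rfl
    · exact le_antisymm (not_lt.mp h) (hv _)
  rw [h1]
  refine sum_le_sum_of_subset_of_nonneg (fun S hS => ?_) (fun S _ _ => hv _)
  rw [mem_filter] at hS
  exact mem_span.mpr ⟨hF.1 S hS.1, S, hS.1, Subset.rfl, hS.2⟩

end B0

open B0 in
theorem B0 : B0Stm := by
  classical
  intro t m v hv F hF
  set 𝓕 : Finset (Finset (Finset ℕ)) :=
    (range m).powerset.powerset.filter (fun G => TI t m G) with h𝓕
  have mem𝓕 : ∀ G, G ∈ 𝓕 ↔ TI t m G := by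
    intro G
    rw [h𝓕, mem_filter, mem_powerset]
    constructor
    · exact fun h => h.2
    · exact fun h => ⟨fun S hS => mem_powerset.mpr (h.1 S hS), h⟩
  obtain ⟨F0, hF0, hmax⟩ := exists_max_image 𝓕 (wt v) ⟨F, (mem𝓕 F).mpr hF⟩
  set 𝓖 : Finset (Finset (Finset ℕ)) := 𝓕.filter (fun G => wt v G = wt v F0) with h𝓖
  obtain ⟨F1, hF1, hmin⟩ := exists_min_image 𝓖 pot ⟨F0, mem_filter.mpr ⟨hF0, rfl⟩⟩
  rw [h𝓖, mem_filter] at hF1
  have hT1 : TI t m F1 := (mem𝓕 F1).mp hF1.1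
  have hM1 : ∀ G, TI t m G → wt v G ≤ wt v F1 := fun G hG => by
    rw [hF1.2]
    exact hmax G ((mem𝓕 G).mpr hG)
  have hlc : ∀ S ∈ F1, ∀ i j, i < j → j ∈ S → i ∉ S → sh i j S ∈ F1 := by
    intro S hS i j hij hj hi
    by_contra hn
    have h1 := mv_pot hij hS hj hi hn
    have h2 := hmin (F1.image (mv i j F1)) (by
      rw [h𝓖, mem_filter]
      exact ⟨(mem𝓕 _).mpr (mv_ti hij hT1), by rw [mv_wt, hF1.2]⟩)
    omega
  refine ⟨span m v F1, ⟨⟨fun S hS => (mem_span.mp hS).1, ?_⟩, ?_, ?_, ?_, ?_⟩, ?_⟩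
  · intro S hS T hT
    obtain ⟨-, A, hA, hAS, -⟩ := mem_span.mp hS
    obtain ⟨-, B, hB, hBT, -⟩ := mem_span.mp hT
    exact (hT1.2 A hA B hB).trans (card_le_card (inter_subset_inter hAS hBT))
  · intro G hG
    exact (hM1 G hG).trans (wt_span hv hT1)
  · intro S hS i j hij hj hi
    obtain ⟨hSm, A, hA, hAS, hpos⟩ := mem_span.mp hS
    have hm : insert i (S.erase j) ⊆ range m := by
      intro x hx
      rcases mem_insert.mp hx with hx | hx
      · have := mem_range.mp (hSm hj)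
        rw [mem_range]
        omega
      · exact hSm (mem_of_mem_erase hx)
    refine mem_span.mpr ⟨hm, ?_⟩
    by_cases hjA : j ∈ A
    · refine ⟨sh i j A, hlc A hA i j hij hjA (fun h => hi (hAS h)), ?_, ?_⟩
      · exact insert_subset_insert _ (erase_subset_erase _ hAS)
      · rw [card_sh hjA (fun h => hi (hAS h))]
        exact hpos
    · refine ⟨A, hA, fun x hx => mem_insert_of_mem (mem_erase.mpr ⟨?_, hAS hx⟩), hpos⟩
      rintro rfl
      exact hjA hx
  · intro S hS T hST hTm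
    obtain ⟨-, A, hA, hAS, hpos⟩ := mem_span.mp hS
    exact mem_span.mpr ⟨hTm, A, hA, hAS.trans hST, hpos⟩
  · intro S hS
    obtain ⟨-, A, hA, hAS, hpos⟩ := mem_span.mp hS
    exact ⟨A, mem_span.mpr ⟨hT1.1 A hA, A, hA, Subset.rfl, hpos⟩, hAS, hpos⟩
  · exact (hM1 F hF).trans (wt_span hv hT1)

end MS
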