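import Pool.Agent.Helper89.MS.Defs

/-! Package KERNEL of the project MS: the supports can be made `t`-intersecting. -/

set_option autoImplicit false

open Finset

namespace MS
namespace Kern

variable {n : ℕ}

/-- the intersection number -/
def S (f g : Fin n → ℕ) : ℕ := ∑ x, min (f x) (g x)

/-- the reflection -/
def sw (i j : Fin n) (f : Fin n → ℕ) : Fin n → ℕ :=
  Function.update (Function.update f i (f j + 1)) j (f i - 1)

lemma sw_i {i j : Fin n} (h : i ≠ j) (f : Fin n → ℕ) : sw i j f i = f j + 1 := by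
  unfold sw
  rw [Function.update_of_ne h, Function.update_self]

lemma sw_j (i j : Fin n) (f : Fin n → ℕ) : sw i j f j = f i - 1 := by
  unfold sw
  rw [Function.update_self]

lemma sw_x {i j x : Fin n} (h1 : x ≠ i) (h2 : x ≠ j) (f : Fin n → ℕ) : sw i j f x = f x := by
  unfold sw
  rw [Function.update_of_ne h2, Function.update_of_ne h1]

lemma sw_sw {i j : Fin n} (h : i ≠ j) {f : Fin n → ℕ} (hf : 1 ≤ f i) :
    sw i j (sw i j f) = f := by
  funext x
  by_cases h1 : x = i
  · subst h1
    rw [sw_i h, sw_j]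
    omega
  · by_cases h2 : x = j
    · subst h2
      rw [sw_j, sw_i h]
      omega
    · rw [sw_x h1 h2, sw_x h1 h2]

lemma split {i j : Fin n} (h : i ≠ j) (F : Fin n → ℕ) :
    ∑ x, F x = F i + (F j + ∑ x ∈ (univ.erase i).erase j, F x) := by
  rw [Finset.add_sum_erase _ _ (Finset.mem_erase.2 ⟨h.symm, mem_univ j⟩),
    Finset.add_sum_erase _ _ (mem_univ i)]

lemma rest {i j : Fin n} (f : Fin n → ℕ) (Φ : ℕ → Fin n → ℕ) :
    ∑ x ∈ (univ.erase i).erase j, Φ (sw i j f x) x = ∑ x ∈ (univ.erase i).erase j, Φ (f x) x := by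
  refine Finset.sum_congr rfl fun x hx => ?_
  rw [sw_x (Finset.ne_of_mem_erase (Finset.mem_of_mem_erase hx)) (Finset.ne_of_mem_erase hx)]

/-- the sum is preserved -/
lemma sum_sw {i j : Fin n} (h : i ≠ j) {f : Fin n → ℕ} (hf : 1 ≤ f i) :
    ∑ x, sw i j f x = ∑ x, f x := by
  rw [split h, split h f, sw_i h, sw_j]
  have := rest (i := i) (j := j) f (fun a _ => a)
  rw [this]
  omega

/-- the sum of squares drops -/
lemma sq_sw {i j : Fin n} (h : i ≠ j) {f : Fin n → ℕ} (hf : f j + 2 ≤ f i) :
    ∑ x, (sw i j f x) ^ 2 < ∑ x, (f x) ^ 2 := by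
  rw [split h, split h (fun x => (f x) ^ 2), sw_i h, sw_j]
  have := rest (i := i) (j := j) f (fun a _ => a ^ 2)
  rw [this]
  obtain ⟨c, hc⟩ : ∃ c, f i = f j + 2 + c := ⟨f i - (f j + 2), by omega⟩
  have h1 : f i - 1 = f j + 1 + c := by omega
  rw [h1, hc]
  nlinarith

lemma S_sw {i j : Fin n} (h : i ≠ j) (f g : Fin n → ℕ) :
    S (sw i j f) g = min (f j + 1) (g i) + (min (f i - 1) (g j) +
      ∑ x ∈ (univ.erase i).erase j, min (f x) (g x)) := by
  unfold S
  rw [split h, sw_i h, sw_j]
  have := rest (i := i) (j := j) f (fun a x => min a (g x))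
  rw [this]

lemma S_split {i j : Fin n} (h : i ≠ j) (f g : Fin n → ℕ) :
    S f g = min (f i) (g i) + (min (f j) (g j) +
      ∑ x ∈ (univ.erase i).erase j, min (f x) (g x)) := by
  unfold S
  rw [split h]

lemma S_comm (f g : Fin n → ℕ) : S f g = S g f := by
  unfold S
  exact Finset.sum_congr rfl fun x _ => min_comm _ _

lemma case1 {i j : Fin n} (h : i ≠ j) {f g : Fin n → ℕ} (hf : f j + 2 ≤ f i)
    (hg : g i ≤ g j + 1) : S f g ≤ S (sw i j f) g := by
  rw [S_sw h, S_split h f g]
  omega

lemma case2 {i j : Fin n} (h : i ≠ j) {f g : Fin n → ℕ} (hf : f j + 2 ≤ f i)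
    (hg : g j + 2 ≤ g i) : S (sw i j f) g = S f (sw i j g) := by
  rw [S_comm f, S_sw h, S_sw h]
  have : ∑ x ∈ (univ.erase i).erase j, min (f x) (g x) =
      ∑ x ∈ (univ.erase i).erase j, min (g x) (f x) :=
    Finset.sum_congr rfl fun x _ => min_comm _ _
  rw [this]
  omega

lemma case3 {i j : Fin n} (h : i ≠ j) {f g : Fin n → ℕ} (hf : f j + 2 ≤ f i)
    (hg : g j + 2 ≤ g i) : S (sw i j f) (sw i j g) = S f g := by
  rw [S_sw h, S_split h f g, sw_i h, sw_j]
  have := rest (i := i) (j := j) g (fun a x => min (f x) a)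
  rw [this]
  omega

/-- the moved function -/
def mv (i j : Fin n) (F : Finset (Fin n → ℕ)) (f : Fin n → ℕ) : Fin n → ℕ :=
  if f j + 2 ≤ f i ∧ sw i j f ∉ F then sw i j f else f

/-- admissible families -/
def Adm (l k t : ℕ) (F : Finset (Fin n → ℕ)) : Prop :=
  (∀ f ∈ F, IsM n l k f) ∧ ∀ f ∈ F, ∀ g ∈ F, t ≤ S f g

/-- the potential -/
def pot (F : Finset (Fin n → ℕ)) : ℕ := ∑ f ∈ F, ∑ x, (f x) ^ 2

lemma mv_inj {i j : Fin n} (h : i ≠ j) (F : Finset (Fin n → ℕ)) :
    Set.InjOn (mv i j F) F := by
  intro f hf g hg hfg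
  unfold mv at hfg
  split_ifs at hfg with h1 h2 h2
  · have := congrArg (sw i j) hfg
    rwa [sw_sw h (by omega), sw_sw h (by omega)] at this
  · exact (h1.2 (hfg ▸ hg)).elim
  · exact (h2.2 (hfg ▸ hf)).elim
  · exact hfg

lemma mv_adm {i j : Fin n} (h : i ≠ j) {l k t : ℕ} {F : Finset (Fin n → ℕ)}
    (hF : Adm l k t F) : Adm l k t (F.image (mv i j F)) := by
  constructor
  · intro f' hf'
    obtain ⟨f, hf, rfl⟩ := Finset.mem_image.1 hf'
    unfold mv
    split_ifs with h1
    · obtain ⟨h2, h3⟩ := hF.1 f hf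
      refine ⟨fun x => ?_, ?_⟩
      · by_cases hx : x = i
        · subst hx
          rw [sw_i h]
          have := h2 x
          omega
        · by_cases hx2 : x = j
          · subst hx2
            rw [sw_j]
            have := h2 i
            omega
          · rw [sw_x hx hx2]
            exact h2 x
      · rw [sum_sw h (by omega)]
        exact h3
    · exact hF.1 f hf
  · intro f' hf' g' hg'
    obtain ⟨f, hf, rfl⟩ := Finset.mem_image.1 hf'
    obtain ⟨g, hg, rfl⟩ := Finset.mem_image.1 hg'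
    unfold mv
    have key : ∀ f ∈ F, ∀ g ∈ F, f j + 2 ≤ f i → ¬ (g j + 2 ≤ g i ∧ sw i j g ∉ F) →
        t ≤ S (sw i j f) g := by
      intro f hf g hg h1 h2
      by_cases h3 : g j + 2 ≤ g i
      · have h4 : sw i j g ∈ F := by
          by_contra h5
          exact h2 ⟨h3, h5⟩
        rw [case2 h h1 h3]
        exact hF.2 f hf _ h4
      · exact (hF.2 f hf g hg).trans (case1 h h1 (by omega))
    split_ifs with h1 h2 h2
    · rw [case3 h h1.1 h2.1]
      exact hF.2 f hf g hg
    · exact key f hf g hg h1.1 h2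
    · rw [S_comm]
      exact key g hg f hf h2.1 h1
    · exact hF.2 f hf g hg

lemma mv_pot {i j : Fin n} (h : i ≠ j) {F : Finset (Fin n → ℕ)} {f : Fin n → ℕ} (hf : f ∈ F)
    (h1 : f j + 2 ≤ f i) (h2 : sw i j f ∉ F) : pot (F.image (mv i j F)) < pot F := by
  unfold pot
  rw [Finset.sum_image (mv_inj h F)]
  refine Finset.sum_lt_sum (fun g _ => ?_) ⟨f, hf, ?_⟩
  · unfold mv
    split_ifs with h3
    · exact (sq_sw h h3.1).le
    · exact le_rfl
  · unfold mv
    rw [if_pos ⟨h1, h2⟩]
    exact sq_sw h h1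

/-- stable families have `t`-intersecting supports -/
lemma stable {l k t : ℕ} {F : Finset (Fin n → ℕ)} (hn : 2 * k ≤ n + t) (hF : Adm l k t F)
    (hst : ∀ i j : Fin n, i ≠ j → ∀ f ∈ F, f j + 2 ≤ f i → sw i j f ∈ F) :
    ∀ m : ℕ, ∀ f ∈ F, ∀ g ∈ F, S f g = m → t ≤ #(supp f ∩ supp g) := by
  intro m
  induction m using Nat.strong_induction_on with
  | _ m ih =>
    intro f hf g hg hm
    by_contra hlt
    push Not at hlt
    have ht := hF.2 f hf g hg
    -- a common multiplicity at least two
    obtain ⟨i, hi⟩ : ∃ i, 2 ≤ min (f i) (g i) := by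
      by_contra hall
      push Not at hall
      have h1 : S f g ≤ #(supp f ∩ supp g) := by
        unfold S
        rw [Finset.card_eq_sum_ones, ← Finset.sum_filter_add_sum_filter_not univ
          (fun x => x ∈ supp f ∩ supp g)]
        have h2 : ∑ x ∈ univ.filter (fun x => ¬ x ∈ supp f ∩ supp g), min (f x) (g x) = 0 := by
          refine Finset.sum_eq_zero fun x hx => ?_
          have hx2 := (Finset.mem_filter.1 hx).2
          unfold supp at hx2
          simp only [Finset.mem_inter, Finset.mem_filter, Finset.mem_univ, true_and] at hx2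
          omega
        rw [h2, add_zero]
        have h3 : univ.filter (fun x => x ∈ supp f ∩ supp g) = supp f ∩ supp g := by
          ext x; simp
        rw [h3]
        refine Finset.sum_le_sum fun x _ => ?_
        have := hall x
        omega
      omega
    -- a common zero
    obtain ⟨j, hj1, hj2⟩ : ∃ j, f j = 0 ∧ g j = 0 := by
      by_contra hall
      push Not at hall
      have h1 : ∑ _x : Fin n, 1 < ∑ x, max (f x) (g x) := by
        refine Finset.sum_lt_sum (fun x _ => ?_) ⟨i, mem_univ i, ?_⟩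
        · have := hall x
          by_cases hfx : f x = 0
          · have := this hfx
            omega
          · omega
        · omega
      have h2 : ∑ x, max (f x) (g x) + S f g = k + k := by
        unfold S
        rw [← Finset.sum_add_distrib]
        have h3 : ∀ x, max (f x) (g x) + min (f x) (g x) = f x + g x := fun x => by omega
        simp_rw [h3]
        rw [Finset.sum_add_distrib, (hF.1 f hf).2, (hF.1 g hg).2]
      rw [Finset.sum_const, Finset.card_univ, Fintype.card_fin, smul_eq_mul, mul_one] at h1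
      omega
    have hij : i ≠ j := by
      rintro rfl
      omega
    have hf' := hst i j hij f hf (by omega)
    have hS : S (sw i j f) g < S f g := by
      rw [S_sw hij, S_split hij f g]
      omega
    have h4 := ih (S (sw i j f) g) (by omega) _ hf' g hg rfl
    have h5 : supp (sw i j f) ∩ supp g = supp f ∩ supp g := by
      ext x
      unfold supp
      simp only [Finset.mem_inter, Finset.mem_filter, Finset.mem_univ, true_and]
      by_cases hx : x = i
      · subst hx
        rw [sw_i hij]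
        omega
      · by_cases hx2 : x = j
        · subst hx2
          rw [sw_j]
          omega
        · rw [sw_x hx hx2]
    rw [h5] at h4
    omega

end Kern

open Kern in
theorem kernel : KERNELStm := by
  classical
  intro n l k t F hn hM hI
  have hex : ∃ m : ℕ, ∃ F1 : Finset (Fin n → ℕ), #F1 = #F ∧ Adm l k t F1 ∧ pot F1 = m :=
    ⟨pot F, F, rfl, ⟨hM, hI⟩, rfl⟩
  obtain ⟨F1, hc, hA, hp⟩ := Nat.find_spec hex
  refine ⟨F1, hc, hA.1, fun f hf g hg => ?_⟩
  refine stable hn hA ?_ (S f g) f hf g hg rfl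
  intro i j hij f hf hfij
  by_contra hnot
  have h1 := mv_pot hij hf hfij hnot
  rw [hp] at h1
  refine Nat.find_min hex h1 ⟨F1.image (mv i j F1), ?_, mv_adm hij hA, rfl⟩
  rw [Finset.card_image_of_injOn (mv_inj hij F1), hc]

end MS
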